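import Pool.Agent.Helper39.SR.GenKer
import Pool.Agent.Helper68.SP.Merge

/-!
# WM-1: many exchanges in `k` matroids, merging of common independent sets of different weight scales
-/

set_option autoImplicit false

namespace Pool.Agent.Helper68.WM

open Finset Pool.Agent.Helper68.SP

/-- Adding `X` to `A` costs at most `k * |X|` elements of `S`. -/
theorem exch_many {E : Type} [Fintype E] [DecidableEq E] {k : ℕ} (M : Fin k → Matroid E)
    (A S X : Finset E)
    (hAS : ∀ i, (M i).Indep ((A ∪ S : Finset E) : Set E))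
    (hAX : ∀ i, (M i).Indep ((A ∪ X : Finset E) : Set E)) :
    ∃ Y : Finset E, Y ⊆ S ∧ (∀ i, (M i).Indep ((A ∪ X ∪ Y : Finset E) : Set E)) ∧
      (S \ Y).card ≤ k * X.card := by
  classical
  have hP : ∀ i, ∃ P : Finset E, A ∪ X ⊆ P ∧ P ⊆ A ∪ X ∪ (A ∪ S) ∧ (M i).Indep (P : Set E) ∧
      ((A ∪ S : Finset E) : Set E) ⊆ (M i).closure (P : Set E) := by
    intro i
    obtain ⟨J, hJ, hBJ⟩ := (hAX i).subset_isBasis_of_subset
      (X := ((A ∪ X ∪ (A ∪ S) : Finset E) : Set E)) (Finset.coe_subset.2 Finset.subset_union_left)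
      (by
        rw [Finset.coe_union]
        exact Set.union_subset (hAX i).subset_ground (hAS i).subset_ground)
    lift J to Finset E using Set.toFinite J
    refine ⟨J, Finset.coe_subset.1 hBJ, Finset.coe_subset.1 hJ.subset, hJ.indep, ?_⟩
    exact (Finset.coe_subset.2 Finset.subset_union_right).trans hJ.subset_closure
  choose P hBP hPU hPi hPcl using hP
  have hcard : ∀ i, (S \ P i).card ≤ X.card := by
    intro i
    have h1 := Pool.Agent.Helper39.SR.card_le_of_subset_closure (M i) (hAS i) (hPcl i)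
    have h2 : ((A ∪ S) \ P i).card ≤ (P i \ (A ∪ S)).card := by
      have h3 : ((A ∪ S) \ P i).card + ((A ∪ S) ∩ P i).card = (A ∪ S).card :=
        Finset.card_sdiff_add_card_inter _ _
      have h4 : (P i \ (A ∪ S)).card + (P i ∩ (A ∪ S)).card = (P i).card :=
        Finset.card_sdiff_add_card_inter _ _
      rw [Finset.inter_comm (P i)] at h4
      omega
    refine le_trans (Finset.card_le_card ?_) (h2.trans (Finset.card_le_card ?_))
    · exact Finset.sdiff_subset_sdiff Finset.subset_union_right subset_rfl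
    · intro e he
      rw [Finset.mem_sdiff] at he
      have h5 := hPU i he.1
      rw [Finset.mem_union, Finset.mem_union] at h5
      rcases h5 with (h5 | h5) | h5
      · exact absurd (Finset.mem_union_left _ h5) he.2
      · exact h5
      · exact absurd h5 he.2
  refine ⟨S.filter (fun e => ∀ i, e ∈ P i), Finset.filter_subset _ _, ?_, ?_⟩
  · intro i
    refine (hPi i).subset (Finset.coe_subset.2 ?_)
    refine Finset.union_subset (hBP i) ?_
    intro e he
    exact (Finset.mem_filter.1 he).2 i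
  · have h1 : S \ S.filter (fun e => ∀ i, e ∈ P i) ⊆
        (Finset.univ : Finset (Fin k)).biUnion (fun i => S \ P i) := by
      intro e he
      rw [Finset.mem_sdiff, Finset.mem_filter] at he
      obtain ⟨he1, he2⟩ := he
      have he3 : ¬ ∀ i, e ∈ P i := fun h => he2 ⟨he1, h⟩
      push Not at he3
      obtain ⟨i, hi⟩ := he3
      exact Finset.mem_biUnion.2 ⟨i, Finset.mem_univ i, Finset.mem_sdiff.2 ⟨he1, hi⟩⟩
    refine (Finset.card_le_card h1).trans (Finset.card_biUnion_le.trans ?_)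
    refine (Finset.sum_le_sum fun i _ => hcard i).trans ?_
    rw [Finset.sum_const, Finset.card_univ, Fintype.card_fin, smul_eq_mul]

variable {E : Type} [Fintype E] [DecidableEq E]

/-- Merging, heavy scales first: the combinatorial part. -/
theorem merge_step {Com : Finset E → Prop} {k : ℕ} (h0 : Com ∅)
    (hex : ∀ A S X : Finset E, Com (A ∪ S) → Com (A ∪ X) →
      ∃ Y : Finset E, Y ⊆ S ∧ Com (A ∪ X ∪ Y) ∧ (S \ Y).card ≤ k * X.card)
    (w : E → ℝ) (b : E → ℤ) (u : ℤ → ℝ) (hu : ∀ β, 0 ≤ u β)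
    (Mb : ℤ → Finset E) (I : Finset ℤ) :
    (∀ β ∈ I, Com (Mb β)) → (∀ β ∈ I, ∀ e ∈ Mb β, b e = β) →
    (∀ β ∈ I, ∀ e ∈ Mb β, w e ≤ u β) →
    ∃ N : Finset E, N ⊆ I.biUnion Mb ∧ Com N ∧
      ∑ β ∈ I, ∑ e ∈ Mb β, w e ≤ ∑ e ∈ N, w e +
        k * ∑ β ∈ I, u β * ∑ β' ∈ I.filter (fun β' => β < β'), ((Mb β').card : ℝ) := by
  classical
  induction I using Finset.induction_on_min with
  | empty =>
    intro _ _ _
    exact ⟨∅, by simp, h0, by simp⟩
  | insert β₀ I hmin ih =>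
    intro hC hb hw
    obtain ⟨N, hN1, hN2, hN3⟩ := ih (fun β hβ => hC β (Finset.mem_insert_of_mem hβ))
      (fun β hβ => hb β (Finset.mem_insert_of_mem hβ)) (fun β hβ => hw β (Finset.mem_insert_of_mem hβ))
    have hβ₀ : β₀ ∉ I := fun h => lt_irrefl _ (hmin β₀ h)
    obtain ⟨Y, hY1, hY2, hY3⟩ := hex ∅ (Mb β₀) N
      (by rw [Finset.empty_union]; exact hC β₀ (Finset.mem_insert_self _ _))
      (by rw [Finset.empty_union]; exact hN2)
    rw [Finset.empty_union] at hY2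
    have hNb : ∀ e ∈ N, β₀ < b e := by
      intro e he
      obtain ⟨β, hβ, he'⟩ := Finset.mem_biUnion.1 (hN1 he)
      rw [hb β (Finset.mem_insert_of_mem hβ) e he']
      exact hmin β hβ
    have hdisj : Disjoint N Y := by
      rw [Finset.disjoint_left]
      intro e he he'
      have h1 := hNb e he
      have h2 := hb β₀ (Finset.mem_insert_self _ _) e (hY1 he')
      omega
    refine ⟨N ∪ Y, ?_, hY2, ?_⟩
    · rw [Finset.biUnion_insert]
      exact Finset.union_subset (hN1.trans Finset.subset_union_right)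
        (hY1.trans Finset.subset_union_left)
    · rw [Finset.sum_insert hβ₀, Finset.sum_insert hβ₀, Finset.sum_union hdisj]
      have h1 : ∑ e ∈ Mb β₀, w e = ∑ e ∈ Y, w e + ∑ e ∈ Mb β₀ \ Y, w e := by
        rw [add_comm]
        exact (Finset.sum_sdiff hY1).symm
      have h2 : ∑ e ∈ Mb β₀ \ Y, w e ≤ u β₀ * (k * ∑ β' ∈ I, ((Mb β').card : ℝ)) := by
        have h3 : ∑ e ∈ Mb β₀ \ Y, w e ≤ ((Mb β₀ \ Y).card : ℝ) * u β₀ := by
          rw [← nsmul_eq_mul, ← Finset.sum_const]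
          exact Finset.sum_le_sum fun e he =>
            hw β₀ (Finset.mem_insert_self _ _) e (Finset.mem_sdiff.1 he).1
        have h4 : N.card ≤ ∑ β' ∈ I, (Mb β').card :=
          (Finset.card_le_card hN1).trans Finset.card_biUnion_le
        have h5 : ((Mb β₀ \ Y).card : ℝ) ≤ k * ∑ β' ∈ I, ((Mb β').card : ℝ) := by
          have h6 : (Mb β₀ \ Y).card ≤ k * ∑ β' ∈ I, (Mb β').card :=
            hY3.trans (Nat.mul_le_mul_left k h4)
          exact_mod_cast h6
        calc ∑ e ∈ Mb β₀ \ Y, w e ≤ ((Mb β₀ \ Y).card : ℝ) * u β₀ := h3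
          _ ≤ (k * ∑ β' ∈ I, ((Mb β').card : ℝ)) * u β₀ := mul_le_mul_of_nonneg_right h5 (hu β₀)
          _ = _ := mul_comm _ _
      have h7 : (insert β₀ I).filter (fun β' => β₀ < β') = I := by
        rw [Finset.filter_insert, if_neg (lt_irrefl β₀), Finset.filter_true_of_mem hmin]
      have h8 : ∀ β ∈ I, (insert β₀ I).filter (fun β' => β < β') = I.filter (fun β' => β < β') := by
        intro β hβ
        rw [Finset.filter_insert, if_neg (not_lt.2 (hmin β hβ).le)]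
      have h10 : ∑ β ∈ I, u β * ∑ β' ∈ (insert β₀ I).filter (fun β' => β < β'), ((Mb β').card : ℝ) =
          ∑ β ∈ I, u β * ∑ β' ∈ I.filter (fun β' => β < β'), ((Mb β').card : ℝ) :=
        Finset.sum_congr rfl (fun β hβ => by rw [h8 β hβ])
      rw [h7, h10]
      rw [h1]
      have h9 : (k : ℝ) * (u β₀ * ∑ β' ∈ I, ((Mb β').card : ℝ) +
          ∑ β ∈ I, u β * ∑ β' ∈ I.filter (fun β' => β < β'), ((Mb β').card : ℝ)) =
          u β₀ * (k * ∑ β' ∈ I, ((Mb β').card : ℝ)) +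
          k * ∑ β ∈ I, u β * ∑ β' ∈ I.filter (fun β' => β < β'), ((Mb β').card : ℝ) := by ring
      rw [h9]
      linarith

/-- The geometric sum. -/
theorem geo_sum (u : ℤ → ℝ) (γ : ℝ) (hγ : 1 < γ) (I : Finset ℤ) (β' : ℤ) (W : ℝ) (hW : 0 ≤ W)
    (hsep : ∀ β ∈ I, β < β' → u β * γ ^ (β' - β).toNat ≤ W) :
    ∑ β ∈ I.filter (fun β => β < β'), u β ≤ W / (γ - 1) := by
  classical
  refine merge_inner u (I.filter (fun β => β < β')) (fun β => (β' - β).toNat) ?_ ?_ γ W hγ hW ?_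
  · intro β hβ
    have := (Finset.mem_filter.1 hβ).2
    show 1 ≤ (β' - β).toNat
    omega
  · intro β hβ β1 hβ1 h
    have h1 := (Finset.mem_filter.1 hβ).2
    have h2 := (Finset.mem_filter.1 hβ1).2
    have h3 : (β' - β).toNat = (β' - β1).toNat := h
    omega
  · intro β hβ
    exact hsep β (Finset.mem_filter.1 hβ).1 (Finset.mem_filter.1 hβ).2

/-- **Merging.** -/
theorem mergeC {Com : Finset E → Prop} {k : ℕ} (h0 : Com ∅)
    (hex : ∀ A S X : Finset E, Com (A ∪ S) → Com (A ∪ X) →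
      ∃ Y : Finset E, Y ⊆ S ∧ Com (A ∪ X ∪ Y) ∧ (S \ Y).card ≤ k * X.card)
    (w : E → ℝ) (hw : ∀ e, 0 ≤ w e) (b : E → ℤ) (u : ℤ → ℝ) (hu : ∀ β, 0 ≤ u β) (γ : ℝ) (hγ : 1 < γ)
    (Mb : ℤ → Finset E) (I : Finset ℤ)
    (hC : ∀ β ∈ I, Com (Mb β)) (hb : ∀ β ∈ I, ∀ e ∈ Mb β, b e = β)
    (hwu : ∀ β ∈ I, ∀ e ∈ Mb β, w e ≤ u β)
    (hsep : ∀ β ∈ I, ∀ β' ∈ I, β < β' → ∀ e' ∈ Mb β', u β * γ ^ (β' - β).toNat ≤ w e') :
    ∃ N : Finset E, N ⊆ I.biUnion Mb ∧ Com N ∧
      (1 - (k : ℝ) / (γ - 1)) * ∑ β ∈ I, ∑ e ∈ Mb β, w e ≤ ∑ e ∈ N, w e := by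
  classical
  obtain ⟨N, hN1, hN2, hN3⟩ := merge_step h0 hex w b u hu Mb I hC hb hwu
  refine ⟨N, hN1, hN2, ?_⟩
  have hswap : ∑ β ∈ I, u β * ∑ β' ∈ I.filter (fun β' => β < β'), ((Mb β').card : ℝ) =
      ∑ β' ∈ I, ((Mb β').card : ℝ) * ∑ β ∈ I.filter (fun β => β < β'), u β := by
    have e1 : ∀ β ∈ I, u β * ∑ β' ∈ I.filter (fun β' => β < β'), ((Mb β').card : ℝ) =
        ∑ β' ∈ I, if β < β' then u β * ((Mb β').card : ℝ) else 0 := by
      intro β _
      rw [Finset.mul_sum, Finset.sum_filter]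
    have e2 : ∀ β' ∈ I, ((Mb β').card : ℝ) * ∑ β ∈ I.filter (fun β => β < β'), u β =
        ∑ β ∈ I, if β < β' then u β * ((Mb β').card : ℝ) else 0 := by
      intro β' _
      rw [Finset.mul_sum, Finset.sum_filter]
      refine Finset.sum_congr rfl fun β _ => ?_
      split_ifs
      · ring
      · rfl
    rw [Finset.sum_congr rfl e1, Finset.sum_congr rfl e2, Finset.sum_comm]
  have hle : ∑ β' ∈ I, ((Mb β').card : ℝ) * ∑ β ∈ I.filter (fun β => β < β'), u β ≤
      ∑ β' ∈ I, ∑ e' ∈ Mb β', w e' / (γ - 1) := by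
    refine Finset.sum_le_sum fun β' hβ' => ?_
    rw [← nsmul_eq_mul, ← Finset.sum_const]
    refine Finset.sum_le_sum fun e' he' => ?_
    exact geo_sum u γ hγ I β' (w e') (hw e') fun β hβ hlt => hsep β hβ β' hβ' hlt e' he'
  rw [hswap] at hN3
  have h1 : ∑ β' ∈ I, ∑ e' ∈ Mb β', w e' / (γ - 1) = (∑ β ∈ I, ∑ e ∈ Mb β, w e) / (γ - 1) := by
    rw [Finset.sum_div]
    exact Finset.sum_congr rfl fun β _ => (Finset.sum_div _ _ _).symm
  rw [h1] at hle
  have h2 : (k : ℝ) * (∑ β' ∈ I, ((Mb β').card : ℝ) * ∑ β ∈ I.filter (fun β => β < β'), u β) ≤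
      k * ((∑ β ∈ I, ∑ e ∈ Mb β, w e) / (γ - 1)) := mul_le_mul_of_nonneg_left hle (Nat.cast_nonneg k)
  have h3 : (k : ℝ) * ((∑ β ∈ I, ∑ e ∈ Mb β, w e) / (γ - 1)) =
      (k : ℝ) / (γ - 1) * ∑ β ∈ I, ∑ e ∈ Mb β, w e := by ring
  rw [sub_mul, one_mul]
  linarith

end Pool.Agent.Helper68.WM
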