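import Pool.Agent.Helper68.WM.Exch
import Pool.Agent.Helper68.SP.Scale
import Pool.Agent.Helper39.SR.Comp

/-!
# WM-2: from one weight scale to all weights

`Com`: a hereditary family with the many-exchange property (`exch_many`). One residue class of weight scales is removed (loss `1/m`),
`T R` is an optimal set of the rest, `B_β` the block `β`, `x_β = E |T ∩ B_β|`, `r_β` the rank of `B_β`. The blocks with
`p r_β ≤ 4 Γ x_β` are kept (so `∑ r_β ≤ (4 Γ / p) ∑ x_β ≤ (4 Γ / p) r`), the others are negligible.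
-/

set_option autoImplicit false

namespace Pool.Agent.Helper68.WM

open Finset Pool.Agent.Helper68.SP Pool.Agent.Helper39.SR

variable {E : Type} [Fintype E] [DecidableEq E]

/-- The rank of a part. -/
noncomputable def rk (Com : Finset E → Prop) (B : Finset E) : ℕ :=
  sSup {n : ℕ | ∃ S : Finset E, S ⊆ B ∧ Com S ∧ n = S.card}

theorem rk_bdd (Com : Finset E → Prop) (B : Finset E) :
    BddAbove {n : ℕ | ∃ S : Finset E, S ⊆ B ∧ Com S ∧ n = S.card} := by
  refine ⟨Fintype.card E, ?_⟩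
  rintro n ⟨S, -, -, rfl⟩
  exact Finset.card_le_univ S

theorem card_le_rk {Com : Finset E → Prop} {B S : Finset E} (h1 : S ⊆ B) (h2 : Com S) :
    S.card ≤ rk Com B := le_csSup (rk_bdd Com B) ⟨S, h1, h2, rfl⟩

theorem exists_rk {Com : Finset E → Prop} (h0 : Com ∅) (B : Finset E) :
    ∃ S : Finset E, S ⊆ B ∧ Com S ∧ S.card = rk Com B := by
  have h := Nat.sSup_mem (s := {n : ℕ | ∃ S : Finset E, S ⊆ B ∧ Com S ∧ n = S.card})
    ⟨_, ∅, Finset.empty_subset _, h0, rfl⟩ (rk_bdd Com B)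
  obtain ⟨S, h1, h2, h3⟩ := h
  exact ⟨S, h1, h2, h3.symm⟩

/-- The expected number of active elements of a set. -/
theorem Ex_card_inter (p : ℝ) (S : Finset E) :
    Ex (fun _ => p) (fun R => ((S ∩ R).card : ℝ)) = p * S.card := by
  have h1 : ∀ R : Finset E, ((S ∩ R).card : ℝ) = ∑ e ∈ S, (if e ∈ R then (1 : ℝ) else 0) := by
    intro R
    rw [Finset.sum_ite_mem, Finset.sum_const, nsmul_eq_mul, mul_one]
  rw [Ex_congr _ h1, Ex_sum]
  rw [Finset.sum_congr rfl fun e _ => Ex_mem (fun _ => p) e, Finset.sum_const, nsmul_eq_mul, mul_comm]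

/-- **Exchange in one block**: the weight of the part of an optimal set in the block. -/
theorem block_gain {Com : Finset E → Prop} {k : ℕ}
    (hmono : ∀ S T : Finset E, S ⊆ T → Com T → Com S)
    (hex : ∀ A S X : Finset E, Com (A ∪ S) → Com (A ∪ X) →
      ∃ Y : Finset E, Y ⊆ S ∧ Com (A ∪ X ∪ Y) ∧ (S \ Y).card ≤ k * X.card)
    (w : E → ℝ) (hw : ∀ e, 0 ≤ w e) (b : E → ℤ) (β : ℤ) (s : ℝ) (hs : 0 ≤ s) {γ : ℝ} (hγ : 2 * (k : ℝ) ≤ γ)
    (hγ0 : 0 < γ) {K R T S : Finset E} (hT : T ⊆ R ∩ K) (hTC : Com T)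
    (hTopt : ∑ e ∈ T, w e = optC Com w (R ∩ K))
    (hS : S ⊆ R ∩ K) (hSC : Com S) (hSb : ∀ e ∈ S, b e = β) (hSw : ∀ e ∈ S, s ≤ w e)
    (hlow : ∀ e ∈ T, b e < β → w e * γ ≤ s) :
    s / 2 * ((S.card : ℝ) - k * ((T.filter (fun e => β < b e)).card : ℝ)) ≤
      ∑ e ∈ T.filter (fun e => b e = β), w e := by
  classical
  set T1 := T.filter (fun e => β < b e) with hT1
  set T2 := T.filter (fun e => b e = β) with hT2
  set T3 := T.filter (fun e => b e < β) with hT3
  have hsplit : ∑ e ∈ T, w e = ∑ e ∈ T1, w e + ∑ e ∈ T2, w e + ∑ e ∈ T3, w e := by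
    rw [hT1, hT2, hT3, Finset.sum_filter, Finset.sum_filter, Finset.sum_filter,
      ← Finset.sum_add_distrib, ← Finset.sum_add_distrib]
    refine Finset.sum_congr rfl fun e _ => ?_
    rcases lt_trichotomy (b e) β with h | h | h
    · rw [if_neg (by omega), if_neg (by omega), if_pos h]; ring
    · rw [if_neg (by omega), if_pos h, if_neg (by omega)]; ring
    · rw [if_pos h, if_neg (by omega), if_neg (by omega)]; ring
  obtain ⟨Y, hY1, hY2, hY3⟩ := hex ∅ S T1 (by rw [Finset.empty_union]; exact hSC)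
    (by rw [Finset.empty_union]; exact hmono _ _ (Finset.filter_subset _ _) hTC)
  rw [Finset.empty_union] at hY2
  obtain ⟨Z, hZ1, hZ2, hZ3⟩ := hex T1 T3 Y
    (hmono _ _ (Finset.union_subset (Finset.filter_subset _ _) (Finset.filter_subset _ _)) hTC) hY2
  have hd1 : Disjoint T1 Y := by
    rw [Finset.disjoint_left]
    intro e he he'
    have h1 := (Finset.mem_filter.1 he).2
    have h2 := hSb e (hY1 he')
    omega
  have hd2 : Disjoint (T1 ∪ Y) Z := by
    rw [Finset.disjoint_left]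
    intro e he he'
    have h1 := (Finset.mem_filter.1 (hZ1 he')).2
    rcases Finset.mem_union.1 he with h | h
    · have h2 := (Finset.mem_filter.1 h).2
      omega
    · have h2 := hSb e (hY1 h)
      omega
  have hopt : ∑ e ∈ T1 ∪ Y ∪ Z, w e ≤ optC Com w (R ∩ K) := by
    refine le_opt ?_ hZ2
    refine Finset.union_subset (Finset.union_subset ?_ (hY1.trans hS)) ?_
    · exact (Finset.filter_subset _ _).trans hT
    · exact hZ1.trans ((Finset.filter_subset _ _).trans hT)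
  rw [Finset.sum_union hd2, Finset.sum_union hd1, ← hTopt, hsplit] at hopt
  have hYw : (Y.card : ℝ) * s ≤ ∑ e ∈ Y, w e := by
    rw [← nsmul_eq_mul, ← Finset.sum_const]
    exact Finset.sum_le_sum fun e he => hSw e (hY1 he)
  have hZw : ∑ e ∈ T3, w e = ∑ e ∈ T3 \ Z, w e + ∑ e ∈ Z, w e := (Finset.sum_sdiff hZ1).symm
  have hloss : ∑ e ∈ T3 \ Z, w e ≤ (Y.card : ℝ) * s / 2 := by
    have h1 : ∀ e ∈ T3 \ Z, w e ≤ s / γ := by
      intro e he
      have h2 := Finset.mem_filter.1 (Finset.mem_sdiff.1 he).1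
      rw [le_div_iff₀ hγ0]
      exact hlow e h2.1 h2.2
    have h3 : ∑ e ∈ T3 \ Z, w e ≤ ((T3 \ Z).card : ℝ) * (s / γ) := by
      rw [← nsmul_eq_mul, ← Finset.sum_const]
      exact Finset.sum_le_sum h1
    have h4 : ((T3 \ Z).card : ℝ) ≤ k * Y.card := by exact_mod_cast hZ3
    have h5 : ((T3 \ Z).card : ℝ) * (s / γ) ≤ (k * Y.card) * (s / γ) :=
      mul_le_mul_of_nonneg_right h4 (div_nonneg hs hγ0.le)
    have h6 : (k * Y.card : ℝ) * (s / γ) = (Y.card : ℝ) * s * (k / γ) := by ring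
    have h7 : (k : ℝ) / γ ≤ 1 / 2 := by
      rw [div_le_div_iff₀ hγ0 two_pos]
      linarith
    have h8 : (Y.card : ℝ) * s * (k / γ) ≤ (Y.card : ℝ) * s * (1 / 2) :=
      mul_le_mul_of_nonneg_left h7 (mul_nonneg (Nat.cast_nonneg _) hs)
    linarith
  have hYc : (S.card : ℝ) - k * (T1.card : ℝ) ≤ Y.card := by
    have h1 : (S \ Y).card + Y.card = S.card := Finset.card_sdiff_add_card_eq_card hY1
    have h2 : ((S \ Y).card : ℝ) + Y.card = S.card := by exact_mod_cast h1
    have h3 : ((S \ Y).card : ℝ) ≤ k * T1.card := by exact_mod_cast hY3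
    linarith
  have h9 : s / 2 * ((S.card : ℝ) - k * (T1.card : ℝ)) ≤ s / 2 * Y.card :=
    mul_le_mul_of_nonneg_left hYc (by linarith)
  linarith

end Pool.Agent.Helper68.WM
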